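import Pool.Agent.H3.Doob

set_option autoImplicit false

namespace Pool.Agent.Results.MP_06b6d5_co.DoobCounterexample

open Pool.Agent.H3.CoreDefs Pool.Agent.H3.Doob

/-- There is a finite distance-regular graph whose core is neither isomorphic to the graph nor
complete. -/
theorem result : ∃ (V : Type) (_ : Finite V) (G : SimpleGraph V), IsDistanceRegular G ∧
    (∃ s, IsCoreOf G s) ∧
    ∀ s, IsCoreOf G s → ¬ Nonempty (G ≃g G.induce s) ∧ G.induce s ≠ ⊤ :=
  ⟨V, inferInstance, G, drg, exists_core G, fun s h => ⟨not_iso s h, not_top s h⟩⟩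

end Pool.Agent.Results.MP_06b6d5_co.DoobCounterexample
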